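import Pool.Agent.H50.EE.GP
import Pool.Agent.H19.EE.GIN
import Pool.Agent.H33.EE.PW
import Pool.Agent.H86.EE5.TAY
import Pool.Agent.H86.EE5.ESY
import Pool.Agent.H33.EE.DETF
import Pool.Agent.H69.EE5.DETU
import Pool.Agent.H69.EE5.RL
import Pool.Agent.H60.EE.DUAL
import Pool.Agent.H49.EE5.STR
import Pool.Agent.H59.EE.MIN
import Pool.Agent.H64.EE.EXB
import Pool.Agent.H19.EE.SUMS
import Pool.Agent.H25.EE5.GAM
import Pool.Agent.H50.EI.PRF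
import Pool.Agent.H77.EI.ONE
import Pool.Agent.H65.EI.CNT
import Pool.Agent.H65.EI.SML
import Pool.Agent.H68.EI.KEYR
import Pool.Agent.H70.EI.NFIN
import Pool.Agent.H69.EI.FIN
import Pool.Agent.H68.EI.CARD
import Pool.Agent.H68.EI.ENT
import Pool.Agent.H6.EI.EVD
import Pool.Agent.H34.EI.FTF
import Pool.Agent.H89.EI.LEN
import Pool.Agent.H92.EI.SEP
import Pool.Agent.H60.EI.TAIL
import Pool.Agent.H69.EI.NUM
import Pool.Agent.H86.EI.BND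
import Pool.Agent.H86.EI.SPR
import Pool.Agent.H86.EI.RANK
import Pool.Agent.H90.EI.SEPG
import Pool.Agent.H33.EI.DEGH
import Pool.Agent.H1.EI.DIFF
import Pool.Agent.H1.EI.UPP
import Pool.Agent.H61.EI.FOUR
import Pool.Agent.H96.EI.HAR
import Pool.Agent.H39.EI.HAN
import Pool.Agent.H33.EI.MEAS
import Pool.Agent.H90.EI.PARX
import Pool.Agent.H34.EI.RAT
import Pool.Agent.H61.EI.FRC
import Pool.Agent.H64.EI.DET
import Pool.Agent.H54.EI.GAU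
import Pool.Agent.H61.EI.DDK
import Pool.Agent.H60.EI.DSK
import Pool.Agent.H49.EI.KKK
import Pool.Agent.H54.EI.RPK
import Pool.Agent.H90.EI.FRK
import Pool.Agent.H13.EI.DETK

/-! The rows are put together. -/

set_option autoImplicit false

namespace Pool.Agent.H51.EI

theorem g_CNT : T_CNT := H65.EI.CNT.pf_CNT H77.EI.ONE.pf_ONE

/-- the criterion -/
theorem g_FIN : T_FIN :=
  H69.EI.FIN.pf_FIN (H50.EI.PRF.pf_PRF H50.EE.pf_GP) (H65.EI.SML.pf_SML g_CNT)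
    (H68.EI.KEYR.pf_KEYR H77.EI.ONE.pf_ONE (H33.EE.PW.pf_PW H19.EE.GIN.pf_GIN)
      H19.EE.GIN.pf_GIN) H70.EI.NFIN.pf_NFIN H19.EE.GIN.pf_GIN

theorem g_LEN : T_LEN := H89.EI.LEN.pf_LEN H68.EI.CARD.pf_CARD

theorem g_ENT : T_ENT := H68.EI.ENT.pf_ENT H86.EE5.TAY.pf_TAY

theorem g_BND : T_BND := H86.EI.BND.pf_BND H68.EI.CARD.pf_CARD

theorem g_DIFF : T_DIFF := H1.EI.DIFF.pf_DIFF g_LEN H64.EE.pf_EXB H68.EI.CARD.pf_CARD

theorem g_DEGH : T_DEGH :=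
  H33.EI.DEGH.pf_DEGH g_LEN H64.EE.pf_EXB H68.EI.CARD.pf_CARD H19.EE.SUMS.pf_SUMS

theorem g_DETU : Pool.Agent.H25.EE.T_DETU :=
  H69.EE5.DETU.pf_DETU (H33.EE.DETF.pf_DETF H86.EE5.ESY.pf_ESY)

theorem g_UPP : T_UPP :=
  H1.EI.UPP.pf_UPP g_ENT g_BND g_DIFF g_DETU H25.EE5.GAM.pf_GAM H68.EI.CARD.pf_CARD
    H6.EI.EVD.pf_EVD

theorem g_SEP : T_SEP :=
  H92.EI.SEP.pf_SEP (H90.EI.SEPG.pf_SEPG H49.EE5.STR.pf_STR) H68.EI.CARD.pf_CARD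

theorem g_RANK : T_RANK :=
  H86.EI.RANK.pf_RANK g_ENT g_BND g_DIFF H69.EE5.RL.pf_RL
    (H60.EE.pf_DUAL H69.EE5.RL.pf_RL) H86.EI.SPR.pf_SPR g_SEP H60.EI.TAIL.pf_TAIL
    H69.EI.NUM.pf_NUM H68.EI.CARD.pf_CARD

/-- the data do not exist -/
theorem g_FOUR : T_FOUR :=
  H61.EI.FOUR.pf_FOUR (H34.EI.FTF.pf_FTF g_RANK H59.EE.pf_MIN g_DEGH g_UPP H6.EI.EVD.pf_EVD)
    g_FIN

/-- construction of the data -/
theorem g_PARX : T_PARX :=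
  H90.EI.PARX.pf_PARX (H33.EI.MEAS.pf_MEAS H96.EI.HAR.pf_HAR H39.EI.HAN.pf_HAN)
    H34.EI.RAT.pf_RAT H61.EI.FRC.pf_FRC

theorem g_DET : T_DET := H64.EI.DET.pf_DET g_PARX g_FOUR

theorem g_FRK : T_FRK :=
  H90.EI.FRK.pf_FRK H54.EI.GAU.pf_GAU H61.EI.DDK.pf_DDK H60.EI.DSK.pf_DSK H49.EI.KKK.pf_KKK

/-- the theorem for `ℚ` and for the imaginary quadratic fields -/
theorem g_DETK : T_DETK :=
  H13.EI.DETK.pf_DETK g_DET H60.EI.DSK.pf_DSK H49.EI.KKK.pf_KKK H54.EI.RPK.pf_RPK g_FRK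

end Pool.Agent.H51.EI
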