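import Pool.Agent.H25.EE.TargetsA
import Pool.Agent.H25.EE.TargetsB

/-! Definitions for the theorem: let `O` be a subring of `ℂ` all of whose non-zero elements have
absolute value at least one (and with good factorization properties), `K` its field of fractions,
`t ≠ 0` in `K`, and `w` a `2 × 2` matrix with entries in `K (e ^ t)` such that the numbers
`exp w i j` are in `K`. Then `det (t + w) ≠ 0`. -/

set_option autoImplicit false

open Polynomial Finset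

namespace Pool.Agent.H51.EI

open Pool.Agent.H25.EE (Idx Ix mlt nd s0 s1 hn EX exo gt GG VJ thr phi bN bH)

/-- non-zero elements have absolute value at least one -/
def Disc (O : Subring ℂ) : Prop := ∀ x : O, x ≠ 0 → 1 ≤ ‖(x : ℂ)‖

noncomputable def toC {O : Subring ℂ} (P : (↥O)[X]) : ℂ[X] := P.map O.subtype

noncomputable def ev {O : Subring ℂ} (P : (↥O)[X]) (x : ℂ) : ℂ := (toC P).eval x

/-- length -/
noncomputable def plen {O : Subring ℂ} (P : (↥O)[X]) : ℝ := ∑ i ∈ P.support, ‖(P.coeff i : ℂ)‖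

noncomputable def rts {O : Subring ℂ} (P : (↥O)[X]) : Multiset ℂ := (toC P).roots

/-- closeness to `X0` -/
noncomputable def vv (X0 β : ℂ) : ℝ := max 0 (-Real.log ‖β - X0‖)

/-- resultant property of a multiset `S` of weight `h` -/
def ResP (O : Subring ℂ) (S : Multiset ℂ) (h : ℝ) : Prop :=
  ∀ (Q : (↥O)[X]) (β1 : ℂ) (N : ℕ) (H : ℝ) (g : ℂ → ℝ), β1 ∈ S → ev Q β1 ≠ 0 →
  Q.natDegree ≤ N →
  (∀ β ∈ S, ‖ev Q β‖ ≤ Real.exp H * (max 1 ‖β‖) ^ N * Real.exp (-(g β))) →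
  (S.map g).sum ≤ N * h + (Multiset.card S : ℝ) * H

/-- factorization property: the roots of a polynomial fall into multisets with the resultant
property, the sum of the weights is at most the logarithm of the length -/
def FR (O : Subring ℂ) : Prop := ∀ D : (↥O)[X], D ≠ 0 → ∃ F : Multiset (Multiset ℂ × ℝ),
  (F.map Prod.fst).sum = rts D ∧ (F.map Prod.snd).sum ≤ Real.log (plen D) ∧
  ∀ R ∈ F, 0 ≤ R.2 ∧ ResP O R.1 R.2

/-- large rational primes have no common factor with a given element -/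
def RP (O : Subring ℂ) : Prop := ∀ z : O, z ≠ 0 → ∃ n0 : ℕ, ∀ p : ℕ, p.Prime → n0 ≤ p →
  ∀ (a : O) (k : ℕ), (p : O) ∣ a * z ^ k → (p : O) ∣ a

/-- the family of polynomials at level `J`; `c` is the ratio of the scales of degree and height -/
def FTI (O : Subring ℂ) (X0 : ℂ) (c ε : ℝ) (J : ℕ) : Prop :=
  ∀ α : ℂ, ‖α - X0‖ ≤ Real.exp (-(thr J)) → ∃ D : (↥O)[X],
  (D.natDegree : ℝ) ≤ c * bN J ∧ plen D ≤ Real.exp (bH J / c) ∧ ev D α ≠ 0 ∧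
  ∀ v : ℝ, 0 ≤ v → ∀ x : ℂ, ‖x - X0‖ ≤ Real.exp (-v) → ‖ev D x‖ ≤ Real.exp (-(phi ε J v))

def FT (O : Subring ℂ) (X0 : ℂ) (c : ℝ) : Prop :=
  ∀ ε : ℝ, 0 < ε → ∃ J0 : ℕ, ∀ J ≥ J0, FTI O X0 c ε J

/-- the data: polynomials `x i`, `y j`, `A`, `B` whose values at `X0` give frequencies and points,
and the numbers `u i j / v i j = exp (x_i y_j / (A B)) * X0 ^ (-δ i j)` -/
structure Par (O : Subring ℂ) (X0 : ℂ) where
  r : ℕ
  x : Fin 2 → (↥O)[X]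
  y : Fin 2 → (↥O)[X]
  A : (↥O)[X]
  B : (↥O)[X]
  u : Fin 2 → Fin 2 → O
  v : Fin 2 → Fin 2 → O
  C : ℝ
  hr : 1 ≤ r
  hC : 0 ≤ C
  hdx : ∀ i, (x i).natDegree ≤ r ^ 4
  hdy : ∀ i, (y i).natDegree ≤ r ^ 4
  hdA : A.natDegree ≤ r ^ 4
  hdB : B.natDegree ≤ r ^ 4
  hA : ev A X0 ≠ 0
  hB : ev B X0 ≠ 0
  hX : X0 ≠ 0
  hu : ∀ i j, u i j ≠ 0
  hv : ∀ i j, v i j ≠ 0
  hsx : ∀ m n : ℤ, (m ≠ 0 ∨ n ≠ 0) →
    Real.exp (-(C * (|(m : ℝ)| + |(n : ℝ)|) * Real.log (|(m : ℝ)| + |(n : ℝ)| + 1))) ≤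
      ‖(m : ℂ) * ev (x 0) X0 + n * ev (x 1) X0‖
  hsy : ∀ m n : ℤ, (m ≠ 0 ∨ n ≠ 0) →
    Real.exp (-(C * (|(m : ℝ)| + |(n : ℝ)|) * Real.log (|(m : ℝ)| + |(n : ℝ)| + 1))) ≤
      ‖(m : ℂ) * ev (y 0) X0 + n * ev (y 1) X0‖
  hval : ∀ i j, Complex.exp (ev (x i) X0 * ev (y j) X0 / (ev A X0 * ev B X0)) =
    X0 ^ (if i = j then 1 else 0 : ℕ) * ((u i j : ℂ) / (v i j : ℂ))

variable {O : Subring ℂ} {X0 : ℂ}

/-- the scale of the multiplicities -/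
noncomputable def qq (π : Par O X0) : ℕ := π.r ^ 4

noncomputable def t0 (π : Par O X0) : ℚ := s0 / (qq π : ℚ)

noncomputable def t1 (π : Par O X0) : ℚ := s1 / (qq π : ℚ)

/-- frequencies -/
noncomputable def om (π : Par O X0) (a : ℤ × ℤ) : ℂ :=
  ((a.1 : ℂ) * ev (π.x 0) X0 + a.2 * ev (π.x 1) X0) / ev π.B X0

/-- points -/
noncomputable def ze (π : Par O X0) (a : ℤ × ℤ) : ℂ :=
  ((a.1 : ℂ) * ev (π.y 0) X0 + a.2 * ev (π.y 1) X0) / ev π.A X0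

noncomputable def rho (π : Par O X0) : ℝ :=
  1 + (‖ev (π.x 0) X0‖ + ‖ev (π.x 1) X0‖) / ‖ev π.B X0‖ +
    (‖ev (π.y 0) X0‖ + ‖ev (π.y 1) X0‖) / ‖ev π.A X0‖

noncomputable def Wp (π : Par O X0) (a : ℤ × ℤ) : (↥O)[X] :=
  C (a.1 : O) * π.x 0 + C (a.2 : O) * π.x 1

noncomputable def Zp (π : Par O X0) (a : ℤ × ℤ) : (↥O)[X] :=
  C (a.1 : O) * π.y 0 + C (a.2 : O) * π.y 1

noncomputable def PP (π : Par O X0) (a b : Idx) : (↥O)[X] :=
  ∑ l ∈ range (min a.2 b.2 + 1),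
    C (((l.factorial * a.2.choose l * b.2.choose l : ℕ) : O)) * Zp π b.1 ^ (a.2 - l) *
      Wp π a.1 ^ (b.2 - l) * (π.A * π.B) ^ l

noncomputable def cst (π : Par O X0) (J : ℕ) (a b : Idx) : O :=
  ∏ i : Fin 2, ∏ j : Fin 2, (π.u i j ^ ((J : ℤ) ^ 2 + exo a b i j).toNat *
    π.v i j ^ ((J : ℤ) ^ 2 - exo a b i j).toNat)

/-- the entries -/
noncomputable def mm (π : Par O X0) (J : ℕ) (a b : Idx) : (↥O)[X] :=
  C (cst π J a b) * PP π a b * X ^ (EX a b)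

noncomputable def ra (π : Par O X0) (a : Idx) : ℂ :=
  ev π.A X0 ^ a.2 * X0 ^ (hn a.1).toNat

noncomputable def cb (π : Par O X0) (J : ℕ) (b : Idx) : ℂ :=
  ev π.B X0 ^ b.2 * X0 ^ (hn b.1).toNat *
    ∏ i : Fin 2, ∏ j : Fin 2, ((π.u i j : ℂ) * (π.v i j : ℂ)) ^ (J ^ 2)

noncomputable def al (π : Par O X0) (a : Idx) (n : ℕ) : ℂ :=
  ra π a * (n.descFactorial a.2 : ℂ) * om π a.1 ^ (n - a.2)

noncomputable def be (π : Par O X0) (J : ℕ) (b : Idx) (n : ℕ) : ℂ :=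
  cb π J b * (n.descFactorial b.2 : ℂ) * ze π b.1 ^ (n - b.2) / (n.factorial : ℂ)

/-- the minors -/
noncomputable def DD (π : Par O X0) (J : ℕ)
    (g : {a // a ∈ Ix (t0 π) J} → {b // b ∈ Ix (t1 π) J}) : (↥O)[X] :=
  Matrix.det (Matrix.of fun a a' : {a // a ∈ Ix (t0 π) J} => mm π J a.1 (g a').1)

/-- the profile in part B (level `J`, scale `q`) -/
noncomputable def phq (q : ℕ) (ε : ℝ) (J : ℕ) (v : ℝ) : ℝ :=
  2 / 1125 * (J : ℝ) ^ 4 / q * v - v ^ 2 / (4 * Real.log J) - ε * (J : ℝ) ^ 8 * Real.log J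

/-- the threshold in part B -/
noncomputable def thq (q : ℕ) (J : ℕ) : ℝ := 712 / 200000 * (J : ℝ) ^ 4 / q * Real.log J

/-- the field of fractions of `O` -/
noncomputable def KK (O : Subring ℂ) : Subfield ℂ := Subfield.closure (O : Set ℂ)

/-- the field generated by `O` and `X0` -/
noncomputable def KX (O : Subring ℂ) (X0 : ℂ) : Subfield ℂ := Subfield.closure ((O : Set ℂ) ∪ {X0})

end Pool.Agent.H51.EI
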