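import Pool.Agent.H51.EI.Defs

/-! Targets of the board ei_modules, part A: the criterion `FT → False`. -/

set_option autoImplicit false

open Polynomial Finset

namespace Pool.Agent.H51.EI

open Pool.Agent.H25.EE (Idx Ix mlt nd s0 s1 hn EX exo gt GG VJ thr phi bN bH)

/-- many zeros near `X0` -/
def T_PROF : Prop := ∀ (O : Subring ℂ) (X0 : ℂ), Disc O → ∀ (D : (↥O)[X]) (N : ℕ) (s φ : ℝ),
  D.natDegree ≤ N → 0 ≤ s → ev D X0 ≠ 0 →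
  (∀ x : ℂ, ‖x - X0‖ ≤ Real.exp (-s) → ‖ev D x‖ ≤ Real.exp (-φ)) →
  φ - N * Real.log (8 * ((N : ℝ) + 1)) ≤ ((rts D).map fun β => min s (vv X0 β)).sum

/-- factorization in a discrete unique factorization domain -/
def T_FRU : Prop := ∀ (O : Subring ℂ) [UniqueFactorizationMonoid O], Disc O → FR O

/-- rational primes in a unique factorization domain -/
def T_RPU : Prop := ∀ (O : Subring ℂ) [UniqueFactorizationMonoid O], Disc O → RP O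

/-- the inequality at one level -/
def T_ONE : Prop := ∀ (O : Subring ℂ) (X0 : ℂ) (c ε : ℝ) (J : ℕ), 0 < c → 0 ≤ ε → 2 ≤ J →
  FTI O X0 c ε J → ∀ (S : Multiset ℂ) (h : ℝ), 0 ≤ h → ResP O S h → X0 ∉ S →
  ∀ β1 ∈ S, thr J ≤ vv X0 β1 → ∀ w : ℂ → ℝ, (∀ β ∈ S, 0 ≤ w β ∧ w β ≤ vv X0 β) →
  (S.map fun β => max 0 (phi ε J (w β))).sum ≤
    c * bN J * h + bH J / c * (Multiset.card S : ℝ)

/-- counting zeros near `X0` -/
def T_CNT : Prop := ∀ (O : Subring ℂ) (X0 : ℂ) (c ε : ℝ) (J j : ℕ) (D : (↥O)[X]),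
  Disc O → FR O → 0 < c → 0 < ε → ε ≤ 1 / 1000000 → 2 ≤ j → j ≤ J →
  FTI O X0 c ε j → ev D X0 ≠ 0 → (D.natDegree : ℝ) ≤ c * bN J → plen D ≤ Real.exp (bH J / c) →
  (Multiset.card ((rts D).filter fun β => thr j ≤ vv X0 β) : ℝ) * ((j : ℝ) ^ 2 * Real.log j) ≤
    3 / 1000 * (J : ℝ) ^ 6 * Real.log J

/-- the zeros not very near `X0` do not matter -/
def T_SML : Prop := ∀ (O : Subring ℂ) (X0 : ℂ) (c ε : ℝ) (J0 : ℕ), Disc O → FR O → 0 < c →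
  0 < ε → ε ≤ 1 / 1000000 → (∀ J ≥ J0, FTI O X0 c ε J) →
  ∃ K : ℝ, ∀ (J m : ℕ) (D : (↥O)[X]), 2 ≤ J → 2 ^ m ≤ J → ev D X0 ≠ 0 →
  (D.natDegree : ℝ) ≤ c * bN J → plen D ≤ Real.exp (bH J / c) →
  (((rts D).filter fun β => vv X0 β < thr (2 ^ m)).map (vv X0)).sum ≤
    K * (J : ℝ) ^ 6 + 3 / 20000 * ((2 : ℝ) ^ m) ^ 2 * (J : ℝ) ^ 6 * Real.log J

/-- key inequality for one multiset of the factorization -/
def T_KEYR : Prop := ∃ Jb : ℕ, ∀ (O : Subring ℂ) (X0 : ℂ) (c : ℝ), 0 < c →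
  ∀ J ≥ Jb, ∀ J1 : ℕ, J ≤ 200 * J1 → J1 ≤ J →
  (∀ j : ℕ, J1 ≤ j → j ≤ J → FTI O X0 c (1 / 10 ^ 20) j) → ∀ (S : Multiset ℂ) (h : ℝ),
  0 ≤ h → ResP O S h → X0 ∉ S →
  8 / 1265625 * (J : ℝ) ^ 8 * Real.log J *
    ((S.filter fun β => thr J1 ≤ vv X0 β).map fun β => GG (vv X0 β / VJ J)).sum ≤
    101 / 100 * (c * bN J * h + bH J / c * (Multiset.card S : ℝ))

/-- asymptotic inequality used at the end -/
def T_NFIN : Prop := ∀ (c K : ℝ), 0 < c → ∃ Jb : ℕ, ∀ J ≥ Jb, ∀ N J1 : ℕ,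
  (N : ℝ) ≤ c * bN J → (100 : ℝ) * J1 ≤ J →
  101 / 100 * (2 * bN J * bH J) <
    2 / 1125 * (J : ℝ) ^ 4 *
      (49 / 100 * (phi (1 / 10 ^ 20) J (93 / 245 * VJ J) - N * Real.log (8 * ((N : ℝ) + 1)) -
          (K * (J : ℝ) ^ 6 + 3 / 20000 * (J1 : ℝ) ^ 2 * (J : ℝ) ^ 6 * Real.log J)) +
        31 / 100 * (phi (1 / 10 ^ 20) J (147 / 155 * VJ J) -
          N * Real.log (8 * ((N : ℝ) + 1)) -
          (K * (J : ℝ) ^ 6 + 3 / 20000 * (J1 : ℝ) ^ 2 * (J : ℝ) ^ 6 * Real.log J)))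

/-- the criterion -/
def T_FIN : Prop := ∀ (O : Subring ℂ) (X0 : ℂ) (c : ℝ), Disc O → FR O → 0 < c →
  FT O X0 c → False

end Pool.Agent.H51.EI
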