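import Pool.Agent.H51.EI.TargetsA

/-! Targets of the board ei_modules, part B: the data give the family `FT`. -/

set_option autoImplicit false

open Polynomial Finset

namespace Pool.Agent.H51.EI

open Pool.Agent.H25.EE (Idx Ix mlt nd s0 s1 hn EX exo gt GG VJ thr phi bN bH)

/-- the entries at `X0` -/
def T_ENT : Prop := ∀ (O : Subring ℂ) (X0 : ℂ) (π : Par O X0) (J : ℕ) (a b : Idx),
  a ∈ Ix (t0 π) J → b ∈ Ix (t1 π) J → HasSum (fun n => al π a n * be π J b n) (ev (mm π J a b) X0)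

/-- numbers of rows and columns -/
def T_CARD : Prop := ∀ q : ℕ, 1 ≤ q →
  (∀ J : ℕ, 1 ≤ J → ((Ix (s0 / q) J).card : ℝ) ≤ 2 / 1125 * (J : ℝ) ^ 4 / q) ∧
  (∀ J : ℕ, 1 ≤ J → ((Ix (s1 / q) J).card : ℝ) ≤ 1001 / 1000 * (2 / 1125) * (J : ℝ) ^ 4 / q) ∧
  (∀ J : ℕ, 1 ≤ J → 2 / 1125 * (J : ℝ) ^ 4 / q - 10 * (J : ℝ) ^ 2 ≤ (Ix (s0 / q) J).card) ∧
  (∃ J0 : ℕ, ∀ J ≥ J0,
    10009 / 10000 * (2 / 1125) * (J : ℝ) ^ 4 / q ≤ (Ix (s1 / q) J).card) ∧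
  (∀ (J : ℕ) (x : ℤ × ℤ), x ∈ nd J → mlt (s0 / q) J x ≤ J ^ 2 ∧ mlt (s1 / q) J x ≤ J ^ 2)

/-- size of the factors -/
def T_BND : Prop := ∀ (O : Subring ℂ) (X0 : ℂ) (π : Par O X0), ∃ C : ℝ, 0 ≤ C ∧
  ∀ J : ℕ, 1 ≤ J →
  (∀ a ∈ Ix (t0 π) J, Real.exp (-(C * (J : ℝ) ^ 2)) ≤ ‖ra π a‖ ∧ ∀ n : ℕ, ‖al π a n‖ ≤
    Real.exp (C * (J : ℝ) ^ 2) * ((n : ℝ) + 1) ^ (J ^ 2) * (rho π * J) ^ n) ∧
  (∀ b ∈ Ix (t1 π) J, Real.exp (-(C * (J : ℝ) ^ 2)) ≤ ‖cb π J b‖ ∧ ∀ n : ℕ, ‖be π J b n‖ ≤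
    Real.exp (C * (J : ℝ) ^ 2) * ((n : ℝ) + 1) ^ (J ^ 2) * (rho π * J) ^ n / n.factorial)

/-- degree and length of the entries -/
def T_LEN : Prop := ∀ (O : Subring ℂ) (X0 : ℂ) (π : Par O X0), ∃ C : ℝ, 0 ≤ C ∧
  ∀ J : ℕ, 2 ≤ J → ∀ a ∈ Ix (t0 π) J, ∀ b ∈ Ix (t1 π) J,
  (mm π J a b).natDegree ≤ qq π * (a.2 + b.2) + EX a b ∧
  plen (mm π J a b) ≤ Real.exp (((a.2 : ℝ) + b.2) * Real.log J + C * (J : ℝ) ^ 2)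

/-- the entries near `X0` -/
def T_DIFF : Prop := ∀ (O : Subring ℂ) (X0 : ℂ) (π : Par O X0), ∃ C : ℝ, 0 ≤ C ∧
  ∀ J : ℕ, 2 ≤ J → ∀ a ∈ Ix (t0 π) J, ∀ b ∈ Ix (t1 π) J, ∀ x : ℂ, ‖x - X0‖ ≤ 1 →
  ‖ev (mm π J a b) x - ev (mm π J a b) X0‖ ≤
    ‖x - X0‖ * Real.exp (C * (J : ℝ) ^ 2 * Real.log J)

/-- degree and length of the minors -/
def T_DEGH : Prop := ∀ (O : Subring ℂ) (X0 : ℂ) (π : Par O X0), ∃ J0 : ℕ, ∀ J ≥ J0,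
  ∀ g : {a // a ∈ Ix (t0 π) J} → {b // b ∈ Ix (t1 π) J}, Function.Injective g →
  ((DD π J g).natDegree : ℝ) ≤ bN J / (qq π : ℝ) ∧
  plen (DD π J g) ≤ Real.exp (1139 / 1000000000 * (J : ℝ) ^ 6 * Real.log J / (qq π : ℝ) ^ 2)

/-- size of the minors near `X0` -/
def T_UPP : Prop := ∀ (O : Subring ℂ) (X0 : ℂ) (π : Par O X0) (ε : ℝ), 0 < ε →
  ∃ J0 : ℕ, ∀ J ≥ J0,
  ∀ g : {a // a ∈ Ix (t0 π) J} → {b // b ∈ Ix (t1 π) J}, ∀ v : ℝ, 0 ≤ v → ∀ x : ℂ,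
  ‖x - X0‖ ≤ Real.exp (-v) → ‖ev (DD π J g) x‖ ≤ Real.exp (-(phq (qq π) ε J v))

/-- the nodes are separated -/
def T_SPR : Prop := ∀ (O : Subring ℂ) (X0 : ℂ) (π : Par O X0), ∃ C : ℝ, 0 ≤ C ∧
  ∀ J : ℕ, 2 ≤ J → ∀ x ∈ nd J, ∀ y ∈ nd J, x ≠ y →
  Real.exp (-(C * J * Real.log J)) ≤ ‖om π x - om π y‖ ∧
  Real.exp (-(C * J * Real.log J)) ≤ ‖ze π x - ze π y‖

/-- product of the differences, general form: the complex numbers `κ1`, `κ2` have small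
combinations bounded below as in `Par`, then the product over the nodes is large -/
def T_SEPG : Prop := ∀ (κ1 κ2 : ℂ) (C : ℝ) (σ : ℚ), 0 ≤ C → 0 < σ → σ ≤ 1 / 100 →
  (∀ m n : ℤ, (m ≠ 0 ∨ n ≠ 0) →
    Real.exp (-(C * (|(m : ℝ)| + |(n : ℝ)|) * Real.log (|(m : ℝ)| + |(n : ℝ)| + 1))) ≤
      ‖(m : ℂ) * κ1 + n * κ2‖) → ∀ ε : ℝ, 0 < ε → ∃ J0 : ℕ, ∀ J ≥ J0, ∀ x ∈ nd J,
  Real.exp ((1 - ε) * (Ix σ J).card * Real.log J) ≤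
    ∏ y ∈ (nd J).erase x, ‖((x.1 : ℂ) * κ1 + x.2 * κ2) - ((y.1 : ℂ) * κ1 + y.2 * κ2)‖ ^ mlt σ J y

/-- product of the differences -/
def T_SEP : Prop := ∀ (O : Subring ℂ) (X0 : ℂ) (π : Par O X0) (σ : ℚ),
  (σ = t0 π ∨ σ = t1 π) → ∀ ε : ℝ, 0 < ε → ∃ J0 : ℕ, ∀ J ≥ J0, ∀ x ∈ nd J,
  Real.exp ((1 - ε) * (Ix σ J).card * Real.log J) ≤
    ∏ y ∈ (nd J).erase x, ‖om π x - om π y‖ ^ mlt σ J y ∧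
  Real.exp ((1 - ε) * (Ix σ J).card * Real.log J) ≤
    ∏ y ∈ (nd J).erase x, ‖ze π x - ze π y‖ ^ mlt σ J y

/-- tail of the exponential series -/
def T_TAIL : Prop := ∀ (ρ ε : ℝ) (q : ℕ), 1 ≤ ρ → 0 < ε → 1 ≤ q → ∃ J0 : ℕ, ∀ J ≥ J0,
  Summable (gt 0 ρ J) ∧ ∀ k : ℕ, J ^ 4 ≤ 1000 * q * k → k ≤ J ^ 4 →
  ∑' n, gt 0 ρ J (n + k) ≤ Real.exp (-((2 - ε) * k * Real.log J))

/-- numerical inequality for the rank -/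
def T_NUM : Prop := ∀ (ρ C1 C2 : ℝ) (q : ℕ), 1 ≤ ρ → 0 ≤ C1 → 0 ≤ C2 → 1 ≤ q →
  ∃ J0 : ℕ, ∀ J ≥ J0, ∀ k k' : ℕ,
  (k : ℝ) ≤ 2 / 1125 * (J : ℝ) ^ 4 / q → J ^ 4 ≤ 1000 * q * k →
  10009 / 10000 * (2 / 1125) * (J : ℝ) ^ 4 / q ≤ k' →
  (k' : ℝ) ≤ 1001 / 1000 * (2 / 1125) * (J : ℝ) ^ 4 / q →
  (J : ℝ) ^ (2 * k) * ((k : ℝ) * k') *
    ((2 * (ρ * J)) ^ k' / Real.exp ((1 - 1 / 10000) * k' * Real.log J) *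
      (2 * (J : ℝ) ^ 2 * k' * Real.exp (C2 * J * Real.log J)) ^ (J ^ 2)) *
    ((2 * (ρ * J)) ^ k / Real.exp ((1 - 1 / 10000) * k * Real.log J) *
      (2 * (J : ℝ) ^ 2 * k * Real.exp (C2 * J * Real.log J)) ^ (J ^ 2)) *
    (Real.exp (C1 * (J : ℝ) ^ 2 * Real.log J) * (Real.exp (-(thq q J)) +
      Real.exp (-((2 - 1 / 10000) * k' * Real.log J)))) < 1

/-- the rows are independent at a point very near `X0` -/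
def T_RANK : Prop := ∀ (O : Subring ℂ) (X0 : ℂ) (π : Par O X0), ∃ J0 : ℕ, ∀ J ≥ J0, ∀ α : ℂ,
  ‖α - X0‖ ≤ Real.exp (-(thq (qq π) J)) → ∀ c : Idx → ℂ,
  (∀ b ∈ Ix (t1 π) J, ∑ a ∈ Ix (t0 π) J, c a * ev (mm π J a b) α = 0) →
  ∀ a ∈ Ix (t0 π) J, c a = 0

/-- evaluation of the minors -/
def T_EVD : Prop := ∀ (O : Subring ℂ) (X0 : ℂ) (π : Par O X0) (J : ℕ)
  (g : {a // a ∈ Ix (t0 π) J} → {b // b ∈ Ix (t1 π) J}) (x : ℂ),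
  ev (DD π J g) x =
    Matrix.det (Matrix.of fun a a' : {a // a ∈ Ix (t0 π) J} => ev (mm π J a.1 (g a').1) x)

/-- the family, level `J = r * J1` -/
def T_FTF : Prop := ∀ (O : Subring ℂ) (X0 : ℂ) (π : Par O X0), FT O X0 ((π.r : ℝ) ^ 2)

/-- the data do not exist -/
def T_FOUR : Prop := ∀ (O : Subring ℂ) (X0 : ℂ), Disc O → FR O → Par O X0 → False

end Pool.Agent.H51.EI
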