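import Pool.Agent.H51.EI.TargetsB

/-! Targets of the board ei_modules, part C: measure of `e ^ t`, construction of the data, the
theorem and its corollaries. -/

set_option autoImplicit false

open Polynomial Finset

namespace Pool.Agent.H51.EI

/-- Hermite's polynomial `X ^ (p - 1) * ∏ l ∈ [1, D], (b X - l a) ^ p` for `t = a / b` -/
noncomputable def hf {O : Subring ℂ} (a b : O) (D p : ℕ) : (↥O)[X] :=
  X ^ (p - 1) * ∏ l ∈ Finset.Icc 1 D, (C b * X - C ((l : O) * a)) ^ p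

/-- Hermite's numbers: `F l = (sum of the derivatives of hf at l t) / (p - 1)!` -/
noncomputable def hF {O : Subring ℂ} (a b : O) (D p l : ℕ) : ℂ :=
  (toC (hf a b D p)).sumIDeriv.eval ((l : ℂ) * ((a : ℂ) / (b : ℂ))) / ((p - 1).factorial : ℂ)

/-- Hermite's numbers, arithmetic part -/
def T_HAR : Prop := ∀ (O : Subring ℂ) (a b : O) (D p : ℕ), a ≠ 0 → b ≠ 0 → p.Prime →
  ∃ G : ℕ → O, (∀ l, 1 ≤ l → l ≤ D → (b : ℂ) ^ ((D + 1) * p) * hF a b D p l = (p : ℂ) * G l) ∧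
  (b : ℂ) ^ ((D + 1) * p) * hF a b D p 0 =
    (b : ℂ) ^ ((D + 1) * p) * (∏ l ∈ Finset.Icc 1 D, (-((l : ℂ) * a)) ^ p) + (p : ℂ) * G 0

/-- Hermite's numbers, analytic part -/
def T_HAN : Prop := ∀ (O : Subring ℂ) (a b : O) (D : ℕ), a ≠ 0 → b ≠ 0 → ∃ c : ℝ, 1 ≤ c ∧
  ∀ p : ℕ, 1 ≤ p →
  (∀ l, l ≤ D → ‖Complex.exp ((l : ℂ) * ((a : ℂ) / (b : ℂ))) * hF a b D p 0 - hF a b D p l‖ ≤
    c ^ p / ((p - 1).factorial : ℝ)) ∧
  ‖hF a b D p 0‖ ≤ Real.exp (c * p * Real.log (p + 1))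

/-- measure of `e ^ t` for polynomials of bounded degree -/
def T_MEAS : Prop := ∀ (O : Subring ℂ) (a b : O) (D : ℕ), Disc O → RP O → a ≠ 0 → b ≠ 0 →
  ∃ c : ℝ, 0 ≤ c ∧ ∀ (P : (↥O)[X]) (H : ℝ), P ≠ 0 → P.natDegree ≤ D → 1 ≤ H →
  (∀ i, ‖(P.coeff i : ℂ)‖ ≤ H) →
  Real.exp (-(c * H * Real.log (H + 1))) ≤ ‖ev P (Complex.exp ((a : ℂ) / (b : ℂ)))‖

/-- the elements of the field generated by `O` and `X0` -/
def T_RAT : Prop := ∀ (O : Subring ℂ) (X0 z : ℂ), z ∈ KX O X0 →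
  ∃ P Q : (↥O)[X], ev Q X0 ≠ 0 ∧ z = ev P X0 / ev Q X0

/-- the field of fractions -/
def T_FRC : Prop := ∀ (O : Subring ℂ) (z : ℂ), z ∈ KK O → ∃ a b : O, b ≠ 0 ∧
  z = (a : ℂ) / (b : ℂ)

/-- construction of the data -/
def T_PARX : Prop := ∀ (O : Subring ℂ) (t : ℂ) (w : Fin 2 → Fin 2 → ℂ), Disc O → RP O →
  t ∈ KK O → t ≠ 0 → (∀ i j, w i j ∈ KX O (Complex.exp t)) →
  (∀ i j, Complex.exp (w i j) ∈ KK O) → (t + w 0 0) * (t + w 1 1) = w 0 1 * w 1 0 →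
  Nonempty (Par O (Complex.exp t))

/-- the theorem for a ring with the two properties -/
def T_DET : Prop := ∀ (O : Subring ℂ) (t : ℂ) (w : Fin 2 → Fin 2 → ℂ), Disc O → FR O → RP O →
  t ∈ KK O → t ≠ 0 → (∀ i j, w i j ∈ KX O (Complex.exp t)) →
  (∀ i j, Complex.exp (w i j) ∈ KK O) → (t + w 0 0) * (t + w 1 1) ≠ w 0 1 * w 1 0

/-- the ring of the algebraic integers of a subfield of `ℂ` -/
def OI (K : Subfield ℂ) : Subring ℂ where
  carrier := {x | x ∈ K ∧ IsIntegral ℤ x}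
  mul_mem' := fun h1 h2 => ⟨K.mul_mem h1.1 h2.1, h1.2.mul h2.2⟩
  one_mem' := ⟨K.one_mem, isIntegral_one⟩
  add_mem' := fun h1 h2 => ⟨K.add_mem h1.1 h2.1, h1.2.add h2.2⟩
  zero_mem' := ⟨K.zero_mem, isIntegral_zero⟩
  neg_mem' := fun h => ⟨K.neg_mem h.1, h.2.neg⟩

/-- `ℚ` or an imaginary quadratic field -/
def IQ (K : Subfield ℂ) : Prop := Module.finrank ℚ K = 1 ∨
  (Module.finrank ℚ K = 2 ∧ ∃ x ∈ K, x.im ≠ 0)

/-- integers of `K` are discrete -/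
def T_DSK : Prop := ∀ K : Subfield ℂ, IQ K → Disc (OI K)

/-- field of fractions of the ring of integers -/
def T_KKK : Prop := ∀ K : Subfield ℂ, IQ K → KK (OI K) = K

/-- rational primes in the ring of integers -/
def T_RPK : Prop := ∀ K : Subfield ℂ, IQ K → RP (OI K)

/-- factorization over the ring of integers -/
def T_FRK : Prop := ∀ K : Subfield ℂ, IQ K → FR (OI K)

/-- the theorem for `ℚ` and for the imaginary quadratic fields -/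
def T_DETK : Prop := ∀ (K : Subfield ℂ) (t : ℂ) (w : Fin 2 → Fin 2 → ℂ), IQ K →
  t ∈ K → t ≠ 0 → (∀ i j, w i j ∈ Subfield.closure ((K : Set ℂ) ∪ {Complex.exp t})) →
  (∀ i j, Complex.exp (w i j) ∈ K) → (t + w 0 0) * (t + w 1 1) ≠ w 0 1 * w 1 0

/-- values of the exponential function on the circle with radius `|t|` -/
def T_CIRC : Prop := ∀ (K : Subfield ℂ) (t a : ℂ), IQ K → t ∈ K → t ≠ 0 →
  (t.im = 0 ∨ t.re = 0) → a ∈ Subfield.closure ((K : Set ℂ) ∪ {Complex.exp t}) → ‖a‖ = ‖t‖ →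
  Complex.exp a ∉ K

end Pool.Agent.H51.EI
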