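import Pool.Agent.H51.EI.TargetsC

/-! Targets of the board ei_modules, part D: commutative algebra for the rows FRK and RPK. -/

set_option autoImplicit false

open Polynomial Finset

namespace Pool.Agent.H51.EI

/-- Gauss lemma for content ideals over a Dedekind domain -/
def T_GAU : Prop := ∀ (R : Type) [CommRing R] [IsDedekindDomain R] (f g : R[X]),
  (f * g).contentIdeal = f.contentIdeal * g.contentIdeal

/-- the ring of integers is a Dedekind domain with a finite class group (in the form that a power
of every ideal is principal, with one exponent) -/
def T_DDK : Prop := ∀ K : Subfield ℂ, IQ K → IsDedekindDomain (OI K) ∧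
  ∃ n : ℕ, 0 < n ∧ ∀ I : Ideal (OI K), ∃ e : OI K, I ^ n = Ideal.span {e}

end Pool.Agent.H51.EI
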